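import Pool.Agent.Helper69.MC.StA

/-!
MODULE SMX of project MC (helper69): strong maximum principle for the minimal surface equation.
-/

set_option autoImplicit false

open Set Topology Filter MeasureTheory

namespace Pool.Agent.Helper55.MC

open Pool.Agent.Helper31.CY Pool.Agent.Helper69.MF Pool.Agent.Helper69.MC

/-- second derivative at a local minimum -/
theorem sdm (g g' : ℝ → ℝ) (d : ℝ) (h1 : ∀ᶠ t in 𝓝 (0 : ℝ), HasDerivAt g (g' t) t)
    (h2 : HasDerivAt g' d 0) (hm : IsLocalMin g 0) : 0 ≤ d := by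
  by_contra hd
  push Not at hd
  have e1 : deriv g =ᶠ[𝓝 0] g' := h1.mono fun t ht => ht.deriv
  have e2 : deriv (deriv g) 0 = d := by rw [e1.deriv_eq]; exact h2.deriv
  have e3 : deriv g 0 = 0 := hm.deriv_eq_zero
  have hc : ContinuousAt g 0 := h1.self_of_nhds.continuousAt
  have hM : IsLocalMax g 0 := isLocalMax_of_deriv_deriv_neg (by rw [e2]; exact hd) e3 hc
  have e4 : g =ᶠ[𝓝 0] fun _ => g 0 := by
    filter_upwards [hm, hM] with t ht1 ht2
    exact le_antisymm ht2 ht1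
  have e5 : deriv g =ᶠ[𝓝 0] fun _ => (0 : ℝ) := by
    have := e4.deriv
    refine this.trans (Eventually.of_forall fun t => by simp)
  have e6 : deriv (deriv g) 0 = 0 := by rw [e5.deriv_eq]; simp
  linarith

theorem sdl (u : ℝ × ℝ → ℝ) (V : Set (ℝ × ℝ)) (hV : IsOpen V) (hu : ContDiffOn ℝ 2 u V)
    (x ξ : ℝ × ℝ) (hx : x ∈ V) :
    (∀ᶠ t in 𝓝 (0 : ℝ), HasDerivAt (fun t : ℝ => u (x + t • ξ)) (fderiv ℝ u (x + t • ξ) ξ) t) ∧
    HasDerivAt (fun t : ℝ => fderiv ℝ u (x + t • ξ) ξ) (fderiv ℝ (fderiv ℝ u) x ξ ξ) 0 := by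
  have hl : ∀ t : ℝ, HasDerivAt (fun t : ℝ => x + t • ξ) ξ t := by
    intro t
    have := ((hasDerivAt_id t).smul_const ξ).const_add x
    simpa using this
  have hc : ContinuousAt (fun t : ℝ => x + t • ξ) 0 := (hl 0).continuousAt
  have h0 : x + (0 : ℝ) • ξ = x := by simp
  constructor
  · have hV' : ∀ᶠ t in 𝓝 (0 : ℝ), x + t • ξ ∈ V := by
      apply hc.eventually_mem
      rw [h0]
      exact hV.mem_nhds hx
    filter_upwards [hV'] with t ht
    have hd : HasFDerivAt u (fderiv ℝ u (x + t • ξ)) (x + t • ξ) :=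
      ((hu.contDiffAt (hV.mem_nhds ht)).differentiableAt (by norm_num)).hasFDerivAt
    exact hd.comp_hasDerivAt t (hl t)
  · have h1 : ContDiffOn ℝ 1 (fderiv ℝ u) V := hu.fderiv_of_isOpen hV (by norm_num)
    have h2 : HasFDerivAt (fderiv ℝ u) (fderiv ℝ (fderiv ℝ u) x) x :=
      ((h1.contDiffAt (hV.mem_nhds hx)).differentiableAt (by norm_num)).hasFDerivAt
    have h3 : HasFDerivAt (fderiv ℝ u) (fderiv ℝ (fderiv ℝ u) x) (x + (0 : ℝ) • ξ) := by
      simpa using h2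
    have h4 := h3.comp_hasDerivAt (0 : ℝ) (hl 0)
    have h5 := (ContinuousLinearMap.apply ℝ ℝ ξ).hasFDerivAt.comp_hasDerivAt (0 : ℝ) h4
    exact h5

/-- the equation in terms of three second directional derivatives -/
theorem eqn (u : ℝ × ℝ → ℝ) (V : Set (ℝ × ℝ)) (hV : IsOpen V) (hu : ContDiffOn ℝ 2 u V)
    (x : ℝ × ℝ) (hx : x ∈ V)
    (he : (1 + D2 u x ^ 2) * D1 (D1 u) x - 2 * D1 u x * D2 u x * D2 (D1 u) x +
      (1 + D1 u x ^ 2) * D2 (D2 u) x = 0) :
    fderiv ℝ (fderiv ℝ u) x (1, 0) (1, 0) + fderiv ℝ (fderiv ℝ u) x (0, 1) (0, 1) +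
      fderiv ℝ (fderiv ℝ u) x (D2 u x, -D1 u x) (D2 u x, -D1 u x) = 0 := by
  have h1 : ContDiffOn ℝ 1 (fderiv ℝ u) V := hu.fderiv_of_isOpen hV (by norm_num)
  have h2 : HasFDerivAt (fderiv ℝ u) (fderiv ℝ (fderiv ℝ u) x) x :=
    ((h1.contDiffAt (hV.mem_nhds hx)).differentiableAt (by norm_num)).hasFDerivAt
  have h3 : ∀ v w : ℝ × ℝ, fderiv ℝ (fun y => fderiv ℝ u y v) x w
      = fderiv ℝ (fderiv ℝ u) x w v := by
    intro v w
    have h4 := (ContinuousLinearMap.apply ℝ ℝ v).hasFDerivAt.comp x h2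
    have h5 : fderiv ℝ (fun y => fderiv ℝ u y v) x
        = (ContinuousLinearMap.apply ℝ ℝ v).comp (fderiv ℝ (fderiv ℝ u) x) := h4.fderiv
    rw [h5]
    rfl
  have hs : IsSymmSndFDerivAt ℝ u x :=
    (hu.contDiffAt (hV.mem_nhds hx)).isSymmSndFDerivAt (by simp)
  have e11 : D1 (D1 u) x = fderiv ℝ (fderiv ℝ u) x (1, 0) (1, 0) := h3 _ _
  have e12 : D2 (D1 u) x = fderiv ℝ (fderiv ℝ u) x (0, 1) (1, 0) := h3 _ _
  have e22 : D2 (D2 u) x = fderiv ℝ (fderiv ℝ u) x (0, 1) (0, 1) := h3 _ _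
  have e21 : fderiv ℝ (fderiv ℝ u) x (1, 0) (0, 1) = fderiv ℝ (fderiv ℝ u) x (0, 1) (1, 0) :=
    hs _ _
  have ew : ((D2 u x, -D1 u x) : ℝ × ℝ) = D2 u x • ((1, 0) : ℝ × ℝ) + (-D1 u x) • ((0, 1) : ℝ × ℝ) := by
    ext <;> simp
  rw [ew]
  simp only [map_add, map_smul, add_apply, smul_apply,
    smul_eq_mul]
  rw [e21]
  rw [e11, e12, e22] at he
  linear_combination he

/-- the squared Euclidean distance -/
def Nq (x c : ℝ × ℝ) : ℝ := (x.1 - c.1) ^ 2 + (x.2 - c.2) ^ 2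

theorem cNq (c : ℝ × ℝ) : Continuous (fun x => Nq x c) := by
  unfold Nq
  fun_prop

theorem Nq_tri (x c q : ℝ × ℝ) : Nq x q ≤ 2 * Nq x c + 2 * Nq c q := by
  unfold Nq
  nlinarith [sq_nonneg ((x.1 - c.1) - (c.1 - q.1)), sq_nonneg ((x.2 - c.2) - (c.2 - q.2))]

theorem Nq_comm (x c : ℝ × ℝ) : Nq x c = Nq c x := by
  unfold Nq; ring

theorem Nq_nn (x c : ℝ × ℝ) : 0 ≤ Nq x c := by
  unfold Nq; positivity

theorem Nq_cpt (c : ℝ × ℝ) (r : ℝ) : IsCompact {x : ℝ × ℝ | Nq x c ≤ r} := by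
  apply Metric.isCompact_of_isClosed_isBounded
  · exact isClosed_le (cNq c) continuous_const
  · rw [Metric.isBounded_iff_subset_closedBall c]
    refine ⟨Real.sqrt r, fun x hx => ?_⟩
    have hx' : Nq x c ≤ r := hx
    unfold Nq at hx'
    rw [Metric.mem_closedBall, Prod.dist_eq, Real.dist_eq, Real.dist_eq]
    apply max_le
    · apply Real.abs_le_sqrt
      nlinarith [sq_nonneg (x.2 - c.2)]
    · apply Real.abs_le_sqrt
      nlinarith [sq_nonneg (x.1 - c.1)]

/-- the barrier inequality at a local minimum, direction `ξ` -/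
theorem bar (u : ℝ × ℝ → ℝ) (V : Set (ℝ × ℝ)) (hV : IsOpen V) (hu : ContDiffOn ℝ 2 u V)
    (x ξ c : ℝ × ℝ) (hx : x ∈ V) (k k' ε α : ℝ)
    (hm : IsLocalMin (fun y => u y - k - ε * (Real.exp (-(α * Nq y c)) - k')) x) :
    0 ≤ fderiv ℝ (fderiv ℝ u) x ξ ξ - ε * (Real.exp (-(α * Nq x c)) *
      (4 * α ^ 2 * ((x.1 - c.1) * ξ.1 + (x.2 - c.2) * ξ.2) ^ 2 - 2 * α * (ξ.1 ^ 2 + ξ.2 ^ 2))) := by
  obtain ⟨h1, h2⟩ := sdl u V hV hu x ξ hx
  set b : ℝ := (x.1 - c.1) * ξ.1 + (x.2 - c.2) * ξ.2 with hb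
  set s : ℝ := ξ.1 ^ 2 + ξ.2 ^ 2 with hs
  have hN : ∀ t : ℝ, Nq (x + t • ξ) c = Nq x c + 2 * t * b + t ^ 2 * s := by
    intro t
    simp only [Nq, Prod.fst_add, Prod.snd_add, Prod.smul_fst, Prod.smul_snd, smul_eq_mul, hb, hs]
    ring
  have hP : ∀ t : ℝ, HasDerivAt (fun t : ℝ => -(α * (Nq x c + 2 * t * b + t ^ 2 * s)))
      (-(α * (2 * b + 2 * t * s))) t := by
    intro t
    have a1 : HasDerivAt (fun t : ℝ => 2 * t * b) (2 * b) t := by
      have := ((hasDerivAt_id t).const_mul 2).mul_const b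
      simpa using this
    have a2 : HasDerivAt (fun t : ℝ => t ^ 2 * s) (2 * t * s) t := by
      have := (hasDerivAt_pow 2 t).mul_const s
      simpa using this
    have a3 := (((a1.const_add (Nq x c)).add a2).const_mul α).neg
    exact a3
  have hE : ∀ t : ℝ, HasDerivAt (fun t : ℝ => Real.exp (-(α * (Nq x c + 2 * t * b + t ^ 2 * s))))
      (Real.exp (-(α * (Nq x c + 2 * t * b + t ^ 2 * s))) * (-(α * (2 * b + 2 * t * s)))) t :=
    fun t => (hP t).exp
  have hlin : HasDerivAt (fun t : ℝ => -(α * (2 * b + 2 * t * s))) (-(α * (2 * s))) 0 := by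
    have a1 : HasDerivAt (fun t : ℝ => 2 * t * s) (2 * s) 0 := by
      have := ((hasDerivAt_id (0 : ℝ)).const_mul 2).mul_const s
      simpa using this
    exact ((a1.const_add (2 * b)).const_mul α).neg
  have hE2 := (hE 0).mul hlin
  have hg1 : ∀ᶠ t in 𝓝 (0 : ℝ), HasDerivAt (fun t : ℝ => u (x + t • ξ) - k - ε *
      (Real.exp (-(α * (Nq x c + 2 * t * b + t ^ 2 * s))) - k'))
      (fderiv ℝ u (x + t • ξ) ξ - ε * (Real.exp (-(α * (Nq x c + 2 * t * b + t ^ 2 * s))) *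
        (-(α * (2 * b + 2 * t * s))))) t := by
    filter_upwards [h1] with t ht
    exact (ht.sub_const k).sub (((hE t).sub_const k').const_mul ε)
  have hg2 := h2.sub (hE2.const_mul ε)
  have hmin : IsLocalMin (fun t : ℝ => u (x + t • ξ) - k - ε *
      (Real.exp (-(α * (Nq x c + 2 * t * b + t ^ 2 * s))) - k')) 0 := by
    have hc : ContinuousAt (fun t : ℝ => x + t • ξ) 0 := by fun_prop
    have h0 : x + (0 : ℝ) • ξ = x := by simp
    have hc' : Tendsto (fun t : ℝ => x + t • ξ) (𝓝 0) (𝓝 x) := by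
      have := hc.tendsto
      rwa [h0] at this
    have := hc'.eventually hm
    filter_upwards [this] with t ht
    rw [hN t] at ht
    have h00 : Nq x c + 2 * 0 * b + 0 ^ 2 * s = Nq x c := by ring
    rw [h00]
    simpa using ht
  have hfin := sdm _ _ _ hg1 hg2 hmin
  have h00 : Nq x c + 2 * 0 * b + 0 ^ 2 * s = Nq x c := by ring
  rw [h00] at hfin
  refine hfin.trans (le_of_eq ?_)
  ring

theorem hSMX : StSMX := by
  intro u V q hV hq hu hmin heq
  by_contra hcon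
  push Not at hcon
  obtain ⟨δ, hδ, hδV⟩ := Metric.isOpen_iff.1 hV q hq
  set ρ : ℝ := δ / 2 with hρ
  have hρ0 : 0 < ρ := by rw [hρ]; linarith
  have hKV : ∀ x, Nq x q ≤ ρ ^ 2 → x ∈ V := by
    intro x hx
    apply hδV
    unfold Nq at hx
    rw [Metric.mem_ball, Prod.dist_eq, Real.dist_eq, Real.dist_eq]
    have h1 : |x.1 - q.1| ≤ ρ := by
      apply abs_le_of_sq_le_sq _ hρ0.le
      nlinarith [sq_nonneg (x.2 - q.2)]
    have h2 : |x.2 - q.2| ≤ ρ := by
      apply abs_le_of_sq_le_sq _ hρ0.le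
      nlinarith [sq_nonneg (x.1 - q.1)]
    rw [max_lt_iff]
    constructor <;> linarith
  obtain ⟨c, hcd, hcu⟩ := hcon (ρ / 4) (by linarith)
  have hcq : Nq c q < ρ ^ 2 / 8 := by
    rw [Prod.dist_eq, Real.dist_eq, Real.dist_eq, max_lt_iff] at hcd
    have h1 : (c.1 - q.1) ^ 2 < (ρ / 4) ^ 2 := by
      rw [← sq_abs]
      exact pow_lt_pow_left₀ hcd.1 (abs_nonneg _) (by norm_num)
    have h2 : (c.2 - q.2) ^ 2 < (ρ / 4) ^ 2 := by
      rw [← sq_abs]
      exact pow_lt_pow_left₀ hcd.2 (abs_nonneg _) (by norm_num)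
    unfold Nq
    nlinarith
  have hK : IsCompact {x : ℝ × ℝ | Nq x q ≤ ρ ^ 2} := Nq_cpt q _
  have huc : ContinuousOn u V := hu.continuousOn
  have hZ : IsCompact ({x : ℝ × ℝ | Nq x q ≤ ρ ^ 2} ∩ u ⁻¹' {u q}) := by
    have h1 : IsClosed ({x : ℝ × ℝ | Nq x q ≤ ρ ^ 2} ∩ u ⁻¹' {u q}) :=
      (huc.mono (fun x hx => hKV x hx)).preimage_isClosed_of_isClosed hK.isClosed isClosed_singleton
    exact hK.of_isClosed_subset h1 inter_subset_left
  have hqZ : q ∈ ({x : ℝ × ℝ | Nq x q ≤ ρ ^ 2} ∩ u ⁻¹' {u q}) := by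
    refine ⟨?_, rfl⟩
    show Nq q q ≤ ρ ^ 2
    unfold Nq
    nlinarith [sq_nonneg ρ]
  obtain ⟨z, hzZ, hzm⟩ := hZ.exists_isMinOn ⟨q, hqZ⟩ (cNq c).continuousOn
  have hzm' : ∀ x, Nq x q ≤ ρ ^ 2 → u x = u q → Nq z c ≤ Nq x c := fun x h1 h2 =>
    isMinOn_iff.1 hzm x ⟨h1, h2⟩
  have hzu : u z = u q := hzZ.2
  set R2 : ℝ := Nq z c with hR2
  have hR2q : R2 ≤ Nq c q := by
    rw [Nq_comm c q]
    exact hzm' q hqZ.1 rfl
  have hR2pos : 0 < R2 := by
    rcases (Nq_nn z c).lt_or_eq with h | h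
    · exact h
    · exfalso
      apply hcu
      have h1 : (z.1 - c.1) ^ 2 + (z.2 - c.2) ^ 2 = 0 := h.symm
      have h2 : z.1 = c.1 := by nlinarith [sq_nonneg (z.1 - c.1), sq_nonneg (z.2 - c.2)]
      have h3 : z.2 = c.2 := by nlinarith [sq_nonneg (z.1 - c.1), sq_nonneg (z.2 - c.2)]
      have h4 : z = c := Prod.ext h2 h3
      rw [← h4]
      exact hzu
  have hin : ∀ x, Nq x c ≤ R2 → Nq x q ≤ ρ ^ 2 := by
    intro x hx
    have := Nq_tri x c q
    nlinarith
  have hinV : ∀ x, Nq x c ≤ R2 → x ∈ V := fun x hx => hKV x (hin x hx)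
  have hpos : ∀ x, Nq x c < R2 → u q < u x := by
    intro x hx
    rcases (hmin x (hinV x hx.le)).lt_or_eq with h | h
    · exact h
    · exact absurd (hzm' x (hin x hx.le) h.symm) (not_le.2 hx)
  -- the annulus
  set A : Set (ℝ × ℝ) := {x | R2 / 4 ≤ Nq x c ∧ Nq x c ≤ R2} with hA
  have hAc : IsCompact A := by
    apply (Nq_cpt c R2).of_isClosed_subset
    · exact (isClosed_le continuous_const (cNq c)).inter (isClosed_le (cNq c) continuous_const)
    · exact fun x hx => hx.2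
  have hAV : A ⊆ V := fun x hx => hinV x hx.2
  have hf1 : ContinuousOn (fderiv ℝ u) V := hu.continuousOn_fderiv_of_isOpen hV (by norm_num)
  have hG : ContinuousOn (fun x => D2 u x ^ 2 + D1 u x ^ 2) A := by
    have h1 : ContinuousOn (fun x => fderiv ℝ u x (1, 0)) A :=
      (hf1.mono hAV).clm_apply continuousOn_const
    have h2 : ContinuousOn (fun x => fderiv ℝ u x (0, 1)) A :=
      (hf1.mono hAV).clm_apply continuousOn_const
    exact (h2.pow 2).add (h1.pow 2)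
  obtain ⟨M, hM⟩ := (hAc.bddAbove_image hG)
  have hM' : ∀ x ∈ A, D2 u x ^ 2 + D1 u x ^ 2 ≤ M := fun x hx => hM ⟨x, hx, rfl⟩
  -- the inner circle
  have hCc : IsCompact {x : ℝ × ℝ | Nq x c = R2 / 4} := by
    apply (Nq_cpt c (R2 / 4)).of_isClosed_subset
    · exact isClosed_eq (cNq c) continuous_const
    · exact fun x hx => le_of_eq hx
  have hCn : ({x : ℝ × ℝ | Nq x c = R2 / 4}).Nonempty := by
    refine ⟨(c.1 + Real.sqrt R2 / 2, c.2), ?_⟩
    show Nq (c.1 + Real.sqrt R2 / 2, c.2) c = R2 / 4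
    unfold Nq
    have := Real.sq_sqrt hR2pos.le
    nlinarith
  have hCA : ({x : ℝ × ℝ | Nq x c = R2 / 4}) ⊆ A := by
    intro x hx
    have hx' : Nq x c = R2 / 4 := hx
    exact ⟨hx'.ge, by linarith⟩
  obtain ⟨x0, hx0, hx0m⟩ := hCc.exists_isMinOn hCn (huc.mono (hCA.trans hAV))
  have hx0' : Nq x0 c = R2 / 4 := hx0
  set m : ℝ := u x0 - u q with hm
  have hm0 : 0 < m := by
    have := hpos x0 (by rw [hx0']; linarith)
    rw [hm]; linarith
  have hcirc : ∀ x, Nq x c = R2 / 4 → u q + m ≤ u x := by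
    intro x hx
    have := isMinOn_iff.1 hx0m x hx
    rw [hm]; linarith
  -- the barrier
  set α : ℝ := 2 * (3 + |M|) / R2 with hα
  have hα0 : 0 < α := by rw [hα]; positivity
  have hαR : α * R2 = 2 * (3 + |M|) := by rw [hα]; field_simp
  set w : ℝ × ℝ → ℝ := fun y => u y - u q - m * (Real.exp (-(α * Nq y c)) - Real.exp (-(α * R2)))
    with hw
  have hwc : ContinuousOn w A := by
    have h1 : Continuous (fun y => m * (Real.exp (-(α * Nq y c)) - Real.exp (-(α * R2)))) := by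
      have := cNq c
      fun_prop
    exact ((huc.mono hAV).sub continuousOn_const).sub h1.continuousOn
  have hAn : A.Nonempty := ⟨x0, hCA hx0⟩
  obtain ⟨y, hyA, hym⟩ := hAc.exists_isMinOn hAn hwc
  have hym' : ∀ x ∈ A, w y ≤ w x := isMinOn_iff.1 hym
  have hwy : 0 ≤ w y := by
    by_contra hneg
    push Not at hneg
    have hexp1 : ∀ r : ℝ, 0 ≤ r → Real.exp (-(α * r)) ≤ 1 := by
      intro r hr
      rw [Real.exp_le_one_iff]
      have := mul_nonneg hα0.le hr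
      linarith
    have hy1 : Nq y c < R2 := by
      rcases hyA.2.lt_or_eq with h | h
      · exact h
      · exfalso
        have h1 : w y = u y - u q := by
          simp only [hw, h, sub_self, mul_zero, sub_zero]
        have h2 := hmin y (hAV hyA)
        linarith
    have hy2 : R2 / 4 < Nq y c := by
      rcases hyA.1.lt_or_eq with h | h
      · exact h
      · exfalso
        have h1 := hcirc y h.symm
        have h2 : Real.exp (-(α * Nq y c)) - Real.exp (-(α * R2)) ≤ 1 := by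
          have h3 := hexp1 (Nq y c) (Nq_nn y c)
          have h4 := Real.exp_pos (-(α * R2))
          linarith
        have h3 : m * (Real.exp (-(α * Nq y c)) - Real.exp (-(α * R2))) ≤ m * 1 :=
          mul_le_mul_of_nonneg_left h2 hm0.le
        have h4 : w y = u y - u q - m * (Real.exp (-(α * Nq y c)) - Real.exp (-(α * R2))) := rfl
        linarith
    have hloc : IsLocalMin w y := by
      have h1 : ∀ᶠ x in 𝓝 y, Nq x c < R2 :=
        (cNq c).continuousAt.eventually_lt continuousAt_const hy1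
      have h2 : ∀ᶠ x in 𝓝 y, R2 / 4 < Nq x c :=
        continuousAt_const.eventually_lt (cNq c).continuousAt hy2
      filter_upwards [h1, h2] with x hx1 hx2
      exact hym' x ⟨hx2.le, hx1.le⟩
    have hyV : y ∈ V := hAV hyA
    have b1 := bar u V hV hu y (1, 0) c hyV _ _ _ _ hloc
    have b2 := bar u V hV hu y (0, 1) c hyV _ _ _ _ hloc
    have b3 := bar u V hV hu y (D2 u y, -D1 u y) c hyV _ _ _ _ hloc
    have he := eqn u V hV hu y hyV (heq y hyV)
    have hMy := hM' y hyA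
    set e : ℝ := Real.exp (-(α * Nq y c)) with hedef
    have he0 : 0 < e := Real.exp_pos _
    set B : ℝ := (y.1 - c.1) * D2 u y + (y.2 - c.2) * -D1 u y with hB
    have hsum : 0 ≤ - (m * (e * (4 * α ^ 2 * (Nq y c + B ^ 2)
        - 2 * α * (2 + (D2 u y ^ 2 + D1 u y ^ 2))))) := by
      have hN : Nq y c = (y.1 - c.1) ^ 2 + (y.2 - c.2) ^ 2 := rfl
      rw [hN]
      simp only [hB] at *
      nlinarith [b1, b2, b3, he]
    have hkey : 0 < 4 * α ^ 2 * (Nq y c + B ^ 2)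
        - 2 * α * (2 + (D2 u y ^ 2 + D1 u y ^ 2)) := by
      have h1 : M ≤ |M| := le_abs_self M
      have h2 : 2 * (3 + |M|) < 4 * (α * Nq y c) := by
        have : α * (R2 / 4) < α * Nq y c := mul_lt_mul_of_pos_left hy2 hα0
        linarith
      have h3 : 0 ≤ α * B ^ 2 := by positivity
      have h4 : 4 * α ^ 2 * (Nq y c + B ^ 2)
        - 2 * α * (2 + (D2 u y ^ 2 + D1 u y ^ 2)) = α * (4 * (α * Nq y c) + 4 * (α * B ^ 2)
          - 2 * (2 + (D2 u y ^ 2 + D1 u y ^ 2))) := by ring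
      rw [h4]
      apply mul_pos hα0
      linarith
    have : 0 < m * (e * (4 * α ^ 2 * (Nq y c + B ^ 2)
        - 2 * α * (2 + (D2 u y ^ 2 + D1 u y ^ 2)))) := by positivity
    linarith
  have hw0 : ∀ x ∈ A, 0 ≤ w x := fun x hx => hwy.trans (hym' x hx)
  -- Hopf
  have hzV : z ∈ V := hinV z (le_of_eq hR2.symm)
  have hz0 : fderiv ℝ u z = 0 := by
    have : IsLocalMin u z := by
      filter_upwards [hV.mem_nhds hzV] with x hx
      rw [hzu]
      exact hmin x hx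
    exact this.fderiv_eq_zero
  have hline : ∀ t : ℝ, Nq (z + t • (c - z)) c = (1 - t) ^ 2 * R2 := by
    intro t
    simp only [Nq, hR2, Prod.fst_add, Prod.snd_add, Prod.smul_fst, Prod.smul_snd, smul_eq_mul,
      Prod.fst_sub, Prod.snd_sub]
    ring
  have hφ : ∀ t : ℝ, 0 ≤ t → t ≤ 1 / 2 → 0 ≤ u (z + t • (c - z)) - u q
      - m * (Real.exp (-(α * ((1 - t) ^ 2 * R2))) - Real.exp (-(α * R2))) := by
    intro t ht1 ht2
    have h1 : z + t • (c - z) ∈ A := by
      refine ⟨?_, ?_⟩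
      · rw [hline]
        nlinarith [mul_nonneg (by nlinarith : 0 ≤ (1 - t) ^ 2 - 1 / 4) hR2pos.le]
      · rw [hline]
        nlinarith [mul_nonneg (by nlinarith : 0 ≤ 1 - (1 - t) ^ 2) hR2pos.le]
    have h2 := hw0 _ h1
    simp only [hw, hline] at h2
    exact h2
  have hd1 : HasDerivAt (fun t : ℝ => u (z + t • (c - z))) 0 0 := by
    have hl : HasDerivAt (fun t : ℝ => z + t • (c - z)) (c - z) 0 := by
      have := ((hasDerivAt_id (0 : ℝ)).smul_const (c - z)).const_add z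
      simpa using this
    have h1 : HasFDerivAt u (fderiv ℝ u z) z :=
      ((hu.contDiffAt (hV.mem_nhds hzV)).differentiableAt (by norm_num)).hasFDerivAt
    have h2 : HasFDerivAt u (fderiv ℝ u z) (z + (0 : ℝ) • (c - z)) := by simpa using h1
    have h3 : HasDerivAt (fun t : ℝ => u (z + t • (c - z))) (fderiv ℝ u z (c - z)) 0 :=
      h2.comp_hasDerivAt (0 : ℝ) hl
    refine h3.congr_deriv ?_
    rw [hz0]
    rfl
  have hd2 : HasDerivAt (fun t : ℝ => Real.exp (-(α * ((1 - t) ^ 2 * R2))))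
      (Real.exp (-(α * R2)) * (2 * α * R2)) 0 := by
    have h1 : HasDerivAt (fun t : ℝ => (1 - t)) (-1) 0 := by
      simpa using (hasDerivAt_id (0 : ℝ)).const_sub 1
    have h2 := (((h1.pow 2).mul_const R2).const_mul α).neg.exp
    refine h2.congr_deriv ?_
    simp
    ring
  have hd3 : HasDerivAt (fun t : ℝ => u (z + t • (c - z)) - u q
      - m * (Real.exp (-(α * ((1 - t) ^ 2 * R2))) - Real.exp (-(α * R2))))
      (0 - m * (Real.exp (-(α * R2)) * (2 * α * R2))) 0 :=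
    (hd1.sub_const (u q)).sub ((hd2.sub_const _).const_mul m)
  have hdneg : 0 - m * (Real.exp (-(α * R2)) * (2 * α * R2)) < 0 := by
    have : 0 < m * (Real.exp (-(α * R2)) * (2 * α * R2)) := by positivity
    linarith
  have hslope := hd3.tendsto_slope_zero_right
  have hge : 0 ≤ 0 - m * (Real.exp (-(α * R2)) * (2 * α * R2)) := by
    apply ge_of_tendsto hslope
    have : Ioo (0 : ℝ) (1 / 2) ∈ 𝓝[>] (0 : ℝ) := Ioo_mem_nhdsGT (by norm_num)
    filter_upwards [this] with t ht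
    have h1 := hφ t ht.1.le ht.2.le
    have h0 : u (z + (0 : ℝ) • (c - z)) - u q
        - m * (Real.exp (-(α * ((1 - (0 : ℝ)) ^ 2 * R2))) - Real.exp (-(α * R2))) = 0 := by
      simp [hzu]
    rw [zero_add, h0, sub_zero, smul_eq_mul]
    exact mul_nonneg (inv_nonneg.2 ht.1.le) h1
  linarith

end Pool.Agent.Helper55.MC
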