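import Pool.Agent.Helper69.MC.StC

/-!
MODULE ST2 of project MC (helper69): push the curve off the discs.
-/

set_option autoImplicit false

open Set Topology Filter MeasureTheory

namespace Pool.Agent.Helper55.MC

open Pool.Agent.Helper31.CY Pool.Agent.Helper69.MF Pool.Agent.Helper69.MC

/-- a cut-off function -/
theorem cutf (K : Set (ℝ × ℝ)) (Q : Set unitInterval) (hQ : IsCompact Q)
    (p : unitInterval → ℝ × ℝ) (hp : Continuous p) (h : ∀ s ∈ Q, p s ∉ K) :
    ∃ ψ : ℝ × ℝ → ℝ, Continuous ψ ∧ (∀ y, 0 ≤ ψ y) ∧ (∀ y ∈ K, 0 < ψ y) ∧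
      ∀ s ∈ Q, ψ (p s) = 0 := by
  rcases Q.eq_empty_or_nonempty with hE | hN
  · refine ⟨fun _ => 1, continuous_const, fun _ => zero_le_one, fun _ _ => one_pos, ?_⟩
    intro s hs
    rw [hE] at hs
    exact absurd hs (notMem_empty s)
  · have hc : IsClosed (p '' Q) := (hQ.image hp).isClosed
    have hne : (p '' Q).Nonempty := hN.image p
    refine ⟨fun y => Metric.infDist y (p '' Q), Metric.continuous_infDist_pt _,
      fun y => Metric.infDist_nonneg, ?_, ?_⟩
    · intro y hy
      have h1 : y ∉ p '' Q := by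
        rintro ⟨s, hs, rfl⟩
        exact h s hs hy
      exact (hc.notMem_iff_infDist_pos hne).1 h1
    · intro s hs
      exact Metric.infDist_zero_of_mem ⟨s, hs, rfl⟩

theorem bvc (c : ℝ) (x : E3) : (x + c • bv 2) 0 = x 0 ∧ (x + c • bv 2) 1 = x 1 ∧
    (x + c • bv 2) 2 = x 2 + c := by
  refine ⟨?_, ?_, ?_⟩ <;> simp [bv]

theorem hST2 : StGAU → StST2 := by
  intro _ K0 K1 h S A hh hK0 hK1 _ _ hA γ hγ hγA
  obtain ⟨hγc, hγ01, hγΓ⟩ := hγ
  obtain ⟨-, -, hU, -, hA0, hA1, -, -⟩ := hA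
  have cz : Continuous (fun s => γ s 2) := by fun_prop
  have cp : Continuous (fun s => (γ s 0, γ s 1)) := by fun_prop
  -- bottom
  have hQ0c : IsCompact (frontier {s : unitInterval | γ s 2 ≤ 0}) := isClosed_frontier.isCompact
  have hQ0 : ∀ s ∈ frontier {s : unitInterval | γ s 2 ≤ 0}, (γ s 0, γ s 1) ∉ K0 := by
    intro s hs hsK
    have hcl : IsClosed {s : unitInterval | γ s 2 ≤ 0} := isClosed_le cz continuous_const
    rw [frontier_eq_closure_inter_closure, hcl.closure_eq] at hs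
    obtain ⟨hs1, hs2⟩ := hs
    have hs1' : γ s 2 ≤ 0 := hs1
    have hs0 : γ s 2 = 0 := by
      refine le_antisymm hs1' ?_
      have h1 : IsClosed {s : unitInterval | 0 ≤ γ s 2} := isClosed_le continuous_const cz
      have h2 : {s : unitInterval | γ s 2 ≤ 0}ᶜ ⊆ {s : unitInterval | 0 ≤ γ s 2} := by
        intro x hx
        have hx' : ¬ γ x 2 ≤ 0 := hx
        show 0 ≤ γ x 2
        linarith
      exact closure_minimal h2 h1 hs2
    by_cases hi : (γ s 0, γ s 1) ∈ interior K0
    · obtain ⟨r, hr, hr'⟩ := hA0 (γ s) hi hs0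
      have e1 : ∀ᶠ s' in 𝓝 s, dist (γ s') (γ s) < r := by
        have := hγc.continuousAt (x := s)
        exact this (Metric.ball_mem_nhds _ hr)
      have e2 : ∀ᶠ s' in 𝓝 s, γ s' 2 < h :=
        cz.continuousAt.eventually_lt continuousAt_const (by rw [hs0]; exact hh)
      obtain ⟨s', hs'1, hs'2⟩ := mem_closure_iff_nhds.1 hs2 _ (e1.and e2)
      have hs'3 : ¬ γ s' 2 ≤ 0 := hs'2
      exact (hγA s').1 (hr' (γ s') ⟨by linarith, hs'1.2⟩ hs'1.1)
    · apply hγΓ s
      left
      refine ⟨?_, hs0⟩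
      rw [hK0.1.isClosed.frontier_eq]
      exact ⟨hsK, hi⟩
  obtain ⟨ψ0, cψ0, nψ0, pψ0, zψ0⟩ := cutf K0 _ hQ0c _ cp hQ0
  -- top
  have hQ1c : IsCompact (frontier {s : unitInterval | h ≤ γ s 2}) := isClosed_frontier.isCompact
  have hQ1 : ∀ s ∈ frontier {s : unitInterval | h ≤ γ s 2}, (γ s 0, γ s 1) ∉ K1 := by
    intro s hs hsK
    have hcl : IsClosed {s : unitInterval | h ≤ γ s 2} := isClosed_le continuous_const cz
    rw [frontier_eq_closure_inter_closure, hcl.closure_eq] at hs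
    obtain ⟨hs1, hs2⟩ := hs
    have hs1' : h ≤ γ s 2 := hs1
    have hs0 : γ s 2 = h := by
      refine le_antisymm ?_ hs1'
      have h1 : IsClosed {s : unitInterval | γ s 2 ≤ h} := isClosed_le cz continuous_const
      have h2 : {s : unitInterval | h ≤ γ s 2}ᶜ ⊆ {s : unitInterval | γ s 2 ≤ h} := by
        intro x hx
        have hx' : ¬ h ≤ γ x 2 := hx
        show γ x 2 ≤ h
        linarith
      exact closure_minimal h2 h1 hs2
    by_cases hi : (γ s 0, γ s 1) ∈ interior K1
    · obtain ⟨r, hr, hr'⟩ := hA1 (γ s) hi hs0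
      have e1 : ∀ᶠ s' in 𝓝 s, dist (γ s') (γ s) < r := by
        have := hγc.continuousAt (x := s)
        exact this (Metric.ball_mem_nhds _ hr)
      have e2 : ∀ᶠ s' in 𝓝 s, 0 < γ s' 2 :=
        continuousAt_const.eventually_lt cz.continuousAt (by rw [hs0]; exact hh)
      obtain ⟨s', hs'1, hs'2⟩ := mem_closure_iff_nhds.1 hs2 _ (e1.and e2)
      have hs'3 : ¬ h ≤ γ s' 2 := hs'2
      exact (hγA s').2.1 (hr' (γ s') ⟨hs'1.2, by linarith⟩ hs'1.1)
    · apply hγΓ s
      right
      refine ⟨?_, hs0⟩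
      rw [hK1.1.isClosed.frontier_eq]
      exact ⟨hsK, hi⟩
  obtain ⟨ψ1, cψ1, nψ1, pψ1, zψ1⟩ := cutf K1 _ hQ1c _ cp hQ1
  -- the displacement
  set d0 : unitInterval → ℝ := fun s => if γ s 2 ≤ 0 then ψ0 (γ s 0, γ s 1) else 0 with hd0
  set d1 : unitInterval → ℝ := fun s => if h ≤ γ s 2 then ψ1 (γ s 0, γ s 1) else 0 with hd1
  have cd0 : Continuous d0 := by
    apply continuous_if
    · intro s hs
      exact zψ0 s hs
    · exact (cψ0.comp cp).continuousOn
    · exact continuousOn_const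
  have cd1 : Continuous d1 := by
    apply continuous_if
    · intro s hs
      exact zψ1 s hs
    · exact (cψ1.comp cp).continuousOn
    · exact continuousOn_const
  have n0 : ∀ s, 0 ≤ d0 s := by
    intro s
    simp only [hd0]
    split_ifs
    · exact nψ0 _
    · exact le_refl _
  have n1 : ∀ s, 0 ≤ d1 s := by
    intro s
    simp only [hd1]
    split_ifs
    · exact nψ1 _
    · exact le_refl _
  have v0 : ∀ s, 0 < γ s 2 → d0 s = 0 := by
    intro s hs
    simp only [hd0]
    rw [if_neg (by linarith)]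
  have v1 : ∀ s, γ s 2 < h → d1 s = 0 := by
    intro s hs
    simp only [hd1]
    rw [if_neg (by linarith)]
  set H : unitInterval × unitInterval → E3 :=
    fun q => γ q.2 + ((q.1 : ℝ) * (d1 q.2 - d0 q.2)) • bv 2 with hH
  have cH : Continuous H := by
    have h1 : Continuous (fun q : unitInterval × unitInterval => γ q.2) :=
      hγc.comp continuous_snd
    have h2 : Continuous (fun q : unitInterval × unitInterval => d1 q.2 - d0 q.2) :=
      (cd1.comp continuous_snd).sub (cd0.comp continuous_snd)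
    have h3 : Continuous (fun q : unitInterval × unitInterval => (q.1 : ℝ)) :=
      continuous_subtype_val.comp continuous_fst
    exact h1.add ((h3.mul h2).smul continuous_const)
  refine ⟨fun s => H (1, s), ⟨H, cH, ?_, fun s => rfl, ?_, ?_⟩, ?_⟩
  · intro s
    simp [hH]
  · intro t
    have e0 : d0 0 = d0 1 := by simp only [hd0, hγ01]
    have e1 : d1 0 = d1 1 := by simp only [hd1, hγ01]
    simp only [hH, hγ01, e0, e1]
  · rintro ⟨t, s⟩ hmem
    have ht0 : 0 ≤ (t : ℝ) := t.2.1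
    obtain ⟨c0, c1, c2⟩ := bvc ((t : ℝ) * (d1 s - d0 s)) (γ s)
    have hHe : H (t, s) = γ s + ((t : ℝ) * (d1 s - d0 s)) • bv 2 := rfl
    rw [hHe] at hmem
    rcases hmem with ⟨m1, m2⟩ | ⟨m1, m2⟩
    · rw [c2] at m2
      rw [c0, c1] at m1
      rcases le_or_gt (γ s 2) 0 with hz | hz
      · have e1 : d1 s = 0 := v1 s (by linarith)
        rw [e1] at m2
        have h3 : 0 ≤ (t : ℝ) * d0 s := mul_nonneg ht0 (n0 s)
        have h4 : γ s 2 = 0 := by nlinarith
        exact hγΓ s (Or.inl ⟨m1, h4⟩)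
      · have e0 : d0 s = 0 := v0 s hz
        rw [e0] at m2
        have h3 : 0 ≤ (t : ℝ) * d1 s := mul_nonneg ht0 (n1 s)
        nlinarith
    · rw [c2] at m2
      rw [c0, c1] at m1
      rcases le_or_gt h (γ s 2) with hz | hz
      · have e0 : d0 s = 0 := v0 s (by linarith)
        rw [e0] at m2
        have h3 : 0 ≤ (t : ℝ) * d1 s := mul_nonneg ht0 (n1 s)
        have h4 : γ s 2 = h := by nlinarith
        exact hγΓ s (Or.inr ⟨m1, h4⟩)
      · have e1 : d1 s = 0 := v1 s hz
        rw [e1] at m2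
        have h3 : 0 ≤ (t : ℝ) * d0 s := mul_nonneg ht0 (n0 s)
        nlinarith
  · intro s hmem
    obtain ⟨c0, c1, c2⟩ := bvc (((1 : unitInterval) : ℝ) * (d1 s - d0 s)) (γ s)
    have hHe : H (1, s) = γ s + (((1 : unitInterval) : ℝ) * (d1 s - d0 s)) • bv 2 := rfl
    have hmem' : H (1, s) ∈ Dsk K0 K1 h := hmem
    rw [hHe] at hmem'
    have h11 : ((1 : unitInterval) : ℝ) = 1 := rfl
    rcases hmem' with ⟨m1, m2⟩ | ⟨m1, m2⟩
    · rw [c2, h11, one_mul] at m2
      rw [c0, c1] at m1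
      rcases le_or_gt (γ s 2) 0 with hz | hz
      · have e1 : d1 s = 0 := v1 s (by linarith)
        have e0 : d0 s = ψ0 (γ s 0, γ s 1) := by simp only [hd0]; rw [if_pos hz]
        have h3 := pψ0 _ m1
        rw [e1, e0] at m2
        linarith
      · have e0 : d0 s = 0 := v0 s hz
        rw [e0] at m2
        have := n1 s
        linarith
    · rw [c2, h11, one_mul] at m2
      rw [c0, c1] at m1
      rcases le_or_gt h (γ s 2) with hz | hz
      · have e0 : d0 s = 0 := v0 s (by linarith)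
        have e1 : d1 s = ψ1 (γ s 0, γ s 1) := by simp only [hd1]; rw [if_pos hz]
        have h3 := pψ1 _ m1
        rw [e1, e0] at m2
        linarith
      · have e1 : d1 s = 0 := v1 s hz
        rw [e1] at m2
        have := n0 s
        linarith

end Pool.Agent.Helper55.MC
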